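import Pool.Agent.R207.AJ1

set_option autoImplicit false

open Filter Topology MeasureTheory

namespace Pool.Agent.Results.MP_784f1f_an.NonUniqueness

/-- Lebesgue measure on the fundamental cube `[0,1)^N` of the flat torus. Functions on the torus
are functions on `ℝ^N` that are `1`-periodic in every variable. -/
noncomputable def cubeMeasure (N : ℕ) : Measure (Fin N → ℝ) :=
  volume.restrict (Set.pi Set.univ fun _ => Set.Ico (0 : ℝ) 1)

/-- Lebesgue measure on the cylinder `Q_T = (0,T) × torus`. -/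
noncomputable def cylMeasure (N : ℕ) (T : ℝ) : Measure (ℝ × (Fin N → ℝ)) :=
  (volume.restrict (Set.Ioo 0 T)).prod (cubeMeasure N)

/-- functions on the torus -/
def Periodic {N : ℕ} (g : (Fin N → ℝ) → ℝ) : Prop :=
  ∀ (x : Fin N → ℝ) (i : Fin N), g (x + Pi.single i 1) = g x

/-- `g` is the weak partial derivative `∂f/∂x_i` on the torus -/
def WeakPartial {N : ℕ} (i : Fin N) (f g : (Fin N → ℝ) → ℝ) : Prop :=
  ∀ ψ : (Fin N → ℝ) → ℝ, ContDiff ℝ ((⊤ : ℕ∞) : WithTop ℕ∞) ψ → Periodic ψ →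
    ∫ x, f x * fderiv ℝ ψ x (Pi.single i 1) ∂(cubeMeasure N) = - ∫ x, g x * ψ x ∂(cubeMeasure N)

/-- `D` is the distributional time derivative of `Φ` on `Q_T` -/
def WeakTime {N : ℕ} (T : ℝ) (Φ D : ℝ → (Fin N → ℝ) → ℝ) : Prop :=
  Integrable (fun p : ℝ × (Fin N → ℝ) => D p.1 p.2) (cylMeasure N T) ∧
  ∀ η : ℝ × (Fin N → ℝ) → ℝ, ContDiff ℝ ((⊤ : ℕ∞) : WithTop ℕ∞) η →
    (∀ t, Periodic (fun x => η (t, x))) →
    (∃ a b : ℝ, 0 < a ∧ b < T ∧ ∀ t x, t < a ∨ b < t → η (t, x) = 0) →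
    ∫ p, Φ p.1 p.2 * fderiv ℝ η p (1, 0) ∂(cylMeasure N T)
      = - ∫ p, D p.1 p.2 * η p ∂(cylMeasure N T)

/-- the coefficients: `μ ∈ L¹(Q_T)` and `μ ≥ c > 0` -/
structure Coefficient (N : ℕ) (T : ℝ) (μ : ℝ → (Fin N → ℝ) → ℝ) : Prop where
  measurable : Measurable (fun p : ℝ × (Fin N → ℝ) => μ p.1 p.2)
  periodic : ∀ t, Periodic (μ t)
  integrable : Integrable (fun p : ℝ × (Fin N → ℝ) => μ p.1 p.2) (cylMeasure N T)
  lower : ∃ c : ℝ, 0 < c ∧ ∀ᵐ p ∂(cylMeasure N T), c ≤ μ p.1 p.2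

/-- `Φ` belongs to the class `X_μ`, with gradient `G`, matrix of second derivatives `H` and time
derivative `D`. -/
structure InX (N : ℕ) (T : ℝ) (μ : ℝ → (Fin N → ℝ) → ℝ) (Φ : ℝ → (Fin N → ℝ) → ℝ)
    (G : Fin N → ℝ → (Fin N → ℝ) → ℝ) (H : Fin N → Fin N → ℝ → (Fin N → ℝ) → ℝ)
    (D : ℝ → (Fin N → ℝ) → ℝ) : Prop where
  periodic : ∀ t, Periodic (Φ t)
  measurable : Measurable (fun p : ℝ × (Fin N → ℝ) => Φ p.1 p.2)
  measurable_grad : ∀ i, Measurable (fun p : ℝ × (Fin N → ℝ) => G i p.1 p.2)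
  measurable_hess : ∀ i j, Measurable (fun p : ℝ × (Fin N → ℝ) => H i j p.1 p.2)
  measurable_time : Measurable (fun p : ℝ × (Fin N → ℝ) => D p.1 p.2)
  /-- `Φ ∈ L^∞(0,T;H¹)` -/
  bounded_h1 : ∃ C : ℝ, ∀ᵐ t ∂(volume.restrict (Set.Ioo 0 T)),
    MemLp (Φ t) 2 (cubeMeasure N) ∧ (∀ i, MemLp (G i t) 2 (cubeMeasure N)) ∧
    (∫ x, Φ t x ^ 2 ∂(cubeMeasure N)) + (∑ i, ∫ x, G i t x ^ 2 ∂(cubeMeasure N)) ≤ C
  weak_grad : ∀ᵐ t ∂(volume.restrict (Set.Ioo 0 T)), ∀ i, WeakPartial i (Φ t) (G i t)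
  /-- `Φ ∈ L²(0,T;H²)` -/
  square_hess : ∀ i j, Integrable (fun p : ℝ × (Fin N → ℝ) => H i j p.1 p.2 ^ 2) (cylMeasure N T)
  weak_hess : ∀ᵐ t ∂(volume.restrict (Set.Ioo 0 T)), ∀ i j,
    MemLp (H i j t) 2 (cubeMeasure N) ∧ WeakPartial j (G i t) (H i j t)
  /-- `Φ ∈ C⁰([0,T];L²)` -/
  continuous : ∀ t ∈ Set.Icc (0 : ℝ) T, MemLp (Φ t) 2 (cubeMeasure N) ∧
    Tendsto (fun s => ∫ x, (Φ s x - Φ t x) ^ 2 ∂(cubeMeasure N)) (𝓝[Set.Icc 0 T] t) (𝓝 0)
  weak_time : WeakTime T Φ D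
  /-- `μ^{-1/2} ∂_t Φ ∈ L²(Q_T)` -/
  weighted_time : Integrable (fun p : ℝ × (Fin N → ℝ) => D p.1 p.2 ^ 2 / μ p.1 p.2)
    (cylMeasure N T)
  /-- `μ^{1/2} ΔΦ ∈ L²(Q_T)` -/
  weighted_laplacian : Integrable (fun p : ℝ × (Fin N → ℝ) =>
    μ p.1 p.2 * (∑ i, H i i p.1 p.2) ^ 2) (cylMeasure N T)

/-- The uniqueness statement of the question, on the `N`-dimensional torus and `(0,T)`: for every
coefficient `μ` and every `Φ ∈ X_μ` with `∂_t Φ + μ ΔΦ = 0` a.e. and `Φ(T,·) = 0`, one has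
`Φ = 0`. -/
def Uniqueness (N : ℕ) (T : ℝ) : Prop :=
  ∀ μ : ℝ → (Fin N → ℝ) → ℝ, Coefficient N T μ →
  ∀ (Φ : ℝ → (Fin N → ℝ) → ℝ) (G : Fin N → ℝ → (Fin N → ℝ) → ℝ)
    (H : Fin N → Fin N → ℝ → (Fin N → ℝ) → ℝ) (D : ℝ → (Fin N → ℝ) → ℝ),
    InX N T μ Φ G H D →
    (∀ᵐ p ∂(cylMeasure N T), D p.1 p.2 + μ p.1 p.2 * (∑ i, H i i p.1 p.2) = 0) →
    (∀ᵐ x ∂(cubeMeasure N), Φ T x = 0) →
    ∀ᵐ p ∂(cylMeasure N T), Φ p.1 p.2 = 0

open Pool.Agent.R207 in
theorem weakPartial_lift {n : ℕ} (i0 i : Fin (n + 1)) {w w1 : ℝ → ℝ} (hw : Integrable w AH.I)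
    (hw1 : Integrable w1 AH.I)
    (h : ∀ φ : ℝ → ℝ, ContDiff ℝ 1 φ → φ 1 = φ 0 →
      ∫ x, w x * deriv φ x ∂AH.I = - ∫ x, w1 x * φ x ∂AH.I) :
    WeakPartial i (fun x : Fin (n + 1) → ℝ => w (Int.fract (x i0)))
      (fun x => if i = i0 then w1 (Int.fract (x i0)) else 0) := by
  intro ψ hψ hper
  have hf : Integrable (fun x : Fin (n + 1) → ℝ => w (Int.fract (x i0))) (AJ.tm (n + 1)) :=
    (AJ.mp_fract i0).integrable_comp_of_integrable hw
  have hf1 : Integrable (fun x : Fin (n + 1) → ℝ => w1 (Int.fract (x i0))) (AJ.tm (n + 1)) :=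
    (AJ.mp_fract i0).integrable_comp_of_integrable hw1
  have hg : Integrable (fun x : Fin (n + 1) → ℝ => if i = i0 then w1 (Int.fract (x i0)) else 0)
      (AJ.tm (n + 1)) := by
    split_ifs
    · exact hf1
    · exact integrable_zero _ _ _
  refine AJ.lift_weak i hf hg (Eventually.of_forall fun x' φ hφ h01 => ?_)
    (hψ.of_le (by exact_mod_cast le_top)) hper
  by_cases hi : i = i0
  · subst hi
    have e1 : ∫ y, w (Int.fract ((i.insertNth y x' : Fin (n + 1) → ℝ) i)) * deriv φ y ∂AH.I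
        = ∫ y, w y * deriv φ y ∂AH.I := by
      refine integral_congr_ae ?_
      filter_upwards [AJ.fract_ae] with y hy
      simp only [Fin.insertNth_apply_same]
      rw [hy]; rfl
    have e2 : ∫ y, (if i = i then w1 (Int.fract ((i.insertNth y x' : Fin (n + 1) → ℝ) i)) else 0)
        * φ y ∂AH.I = ∫ y, w1 y * φ y ∂AH.I := by
      refine integral_congr_ae ?_
      filter_upwards [AJ.fract_ae] with y hy
      simp only [Fin.insertNth_apply_same, if_true]
      rw [hy]; rfl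
    rw [e1, e2]
    exact h φ hφ h01
  · obtain ⟨k, hk⟩ := Fin.exists_succAbove_eq (Ne.symm hi)
    have e1 : ∀ y : ℝ, (i.insertNth y x' : Fin (n + 1) → ℝ) i0 = x' k := by
      intro y; rw [← hk, Fin.insertNth_apply_succAbove]
    simp only [e1, if_neg hi, zero_mul, integral_zero, neg_zero]
    rw [integral_const_mul, AH.int_I, intervalIntegral.integral_eq_sub_of_hasDerivAt (f := φ)
      (fun x _ => ((hφ.differentiable (by norm_num)) x).hasDerivAt)
      ((hφ.continuous_deriv le_rfl).intervalIntegrable _ _), h01, sub_self, mul_zero]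

theorem weakPartial_zero {n : ℕ} (i : Fin (n + 1)) :
    WeakPartial i (fun _ : Fin (n + 1) → ℝ => 0) (fun _ => 0) := by
  intro ψ _ _
  simp

open Pool.Agent.R207 in
theorem weakTime_lift {n : ℕ} (i0 : Fin (n + 1)) {T : ℝ} (hT : 0 < T) {Ψ Ψs : ℝ × ℝ → ℝ}
    (hm : Measurable Ψ) (hb : ∃ C : ℝ, ∀ᵐ x ∂AH.I, ∀ s ∈ Set.Icc (0 : ℝ) 1, |Ψ (s, x)| ≤ C)
    (hsi : Integrable Ψs AH.Q) (hsm : Measurable Ψs)
    (hti : ∀ᵐ x ∂AH.I, ∀ s ∈ Set.Icc (0 : ℝ) 1, Ψ (s, x) = ∫ r, AH.ind s r * Ψs (r, x) ∂AH.I) :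
    WeakTime T (fun t (x : Fin (n + 1) → ℝ) => Ψ (AJ.th i0 T (t, x)))
      (fun t x => - (Ψs (AJ.th i0 T (t, x)) / T)) := by
  have hTne : T ≠ 0 := hT.ne'
  have hDi : Integrable (fun p : ℝ × (Fin (n + 1) → ℝ) => - (Ψs (AJ.th i0 T (p.1, p.2)) / T))
      (AJ.QT (n + 1) T) := ((AJ.th_intble i0 hT hsi).div_const T).neg
  refine ⟨hDi, ?_⟩
  rintro η hη hper ⟨a, b, ha, hb2, hsupp⟩
  have hη1 : ContDiff ℝ 1 η := hη.of_le (by exact_mod_cast le_top)
  have hηc := hη1.continuous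
  have hηt : Continuous (fun p : ℝ × (Fin (n + 1) → ℝ) => fderiv ℝ η p (1, 0)) :=
    (hη1.continuous_fderiv (by norm_num)).clm_apply continuous_const
  -- boundedness on the cylinder
  have hbd : ∀ {g : ℝ × (Fin (n + 1) → ℝ) → ℝ}, Continuous g →
      ∃ C : ℝ, ∀ᵐ p ∂(AJ.QT (n + 1) T), |g p| ≤ C := by
    intro g hg
    have hK : IsCompact (Set.Icc (0 : ℝ) T ×ˢ
        (Set.pi Set.univ fun _ : Fin (n + 1) => Set.Icc (0 : ℝ) 1)) :=
      isCompact_Icc.prod (isCompact_univ_pi fun _ => isCompact_Icc)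
    obtain ⟨C, hC⟩ := hK.exists_bound_of_continuousOn hg.continuousOn
    refine ⟨C, ?_⟩
    have h1 : ∀ᵐ p : ℝ × (Fin (n + 1) → ℝ) ∂(AJ.QT (n + 1) T), p.1 ∈ Set.Icc (0 : ℝ) T := by
      have hq : Measure.QuasiMeasurePreserving (Prod.fst : ℝ × (Fin (n + 1) → ℝ) → ℝ)
          (AJ.QT (n + 1) T) (volume.restrict (Set.Ioo 0 T)) :=
        Measure.quasiMeasurePreserving_fst
      refine hq.ae ?_
      rw [ae_restrict_iff' measurableSet_Ioo]
      exact Eventually.of_forall fun t ht => ⟨ht.1.le, ht.2.le⟩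
    have h2 : ∀ᵐ p : ℝ × (Fin (n + 1) → ℝ) ∂(AJ.QT (n + 1) T), ∀ i, p.2 i ∈ Set.Icc (0 : ℝ) 1 := by
      have hq : Measure.QuasiMeasurePreserving (Prod.snd : ℝ × (Fin (n + 1) → ℝ) → _)
          (AJ.QT (n + 1) T) (AJ.tm (n + 1)) :=
        Measure.quasiMeasurePreserving_snd
      exact hq.ae AJ.tm_ae
    filter_upwards [h1, h2] with p hp1 hp2
    exact hC p ⟨hp1, fun i _ => hp2 i⟩
  have hmulb : ∀ {f g : ℝ × (Fin (n + 1) → ℝ) → ℝ}, Integrable f (AJ.QT (n + 1) T) →
      Continuous g → Integrable (fun p => f p * g p) (AJ.QT (n + 1) T) := by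
    intro f g hf hg
    obtain ⟨C, hC⟩ := hbd hg
    refine (hf.norm.const_mul C).mono' (hf.1.mul hg.measurable.aestronglyMeasurable) ?_
    filter_upwards [hC] with p hp
    rw [norm_mul, mul_comm]
    exact mul_le_mul_of_nonneg_right hp (norm_nonneg _)
  have hΨi : Integrable Ψ AH.Q := by
    obtain ⟨C, hC⟩ := hb
    refine (integrable_const C).mono' hm.aestronglyMeasurable ?_
    filter_upwards [AH.ae_snd hC, AH.ae_mem1] with p hp hp1
    exact hp p.1 hp1
  have hΦi := AJ.th_intble (N := n + 1) i0 hT hΨi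
  have i1 := hmulb hΦi hηt
  have i2 := hmulb hDi hηc
  change ∫ p, Ψ (AJ.th i0 T (p.1, p.2)) * fderiv ℝ η p (1, 0) ∂(AJ.QT (n + 1) T)
    = - ∫ p, -(Ψs (AJ.th i0 T (p.1, p.2)) / T) * η p ∂(AJ.QT (n + 1) T)
  unfold AJ.QT at i1 i2 ⊢
  rw [integral_prod_symm _ i1, integral_prod_symm _ i2, ← integral_neg]
  refine integral_congr_ae ?_
  have g1 : ∀ᵐ x ∂AH.I, Integrable (fun s => Ψs (s, x)) AH.I :=
    Integrable.prod_left_ae (f := Ψs) hsi
  have g2 : ∀ᵐ x : Fin (n + 1) → ℝ ∂(AJ.tm (n + 1)),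
      Integrable (fun s => Ψs (s, Int.fract (x i0))) AH.I ∧
      ∀ s ∈ Set.Icc (0 : ℝ) 1, Ψ (s, Int.fract (x i0))
        = ∫ r, AH.ind s r * Ψs (r, Int.fract (x i0)) ∂AH.I :=
    (AJ.mp_fract i0).quasiMeasurePreserving.ae (g1.and hti)
  filter_upwards [g2] with x hx
  set x0 := Int.fract (x i0) with hx0
  -- the one-dimensional identity
  let ζ : ℝ → ℝ := fun s => η (T * (1 - s), x)
  have hζ : ContDiff ℝ 1 ζ := hη1.comp (by fun_prop)
  have hζ1 : ζ 1 = 0 := by
    simp only [ζ]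
    rw [sub_self, mul_zero]
    exact hsupp 0 x (Or.inl ha)
  have hζd : ∀ s, deriv ζ s = - T * fderiv ℝ η (T * (1 - s), x) (1, 0) := by
    intro s
    have h1 : HasFDerivAt η (fderiv ℝ η (T * (1 - s), x)) (T * (1 - s), x) :=
      ((hη1.differentiable (by norm_num)) _).hasFDerivAt
    have h2 : HasDerivAt (fun s : ℝ => (T * (1 - s), x)) ((-T, 0) : ℝ × (Fin (n + 1) → ℝ)) s := by
      have h3 : HasDerivAt (fun s : ℝ => T * (1 - s)) (-T) s := by
        simpa using ((hasDerivAt_id s).const_sub 1).const_mul T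
      exact h3.prodMk (hasDerivAt_const s x)
    have h4 := (h1.comp_hasDerivAt s h2).deriv
    have h5 : ((-T, 0) : ℝ × (Fin (n + 1) → ℝ)) = (-T) • ((1, 0) : ℝ × (Fin (n + 1) → ℝ)) := by
      simp
    rw [h5, map_smul, smul_eq_mul] at h4
    exact h4
  have hbp := AJ.by_parts_time hx.1 hζ hζ1
  have e1 : ∫ t in Set.Ioo 0 T, Ψ (AJ.th i0 T (t, x)) * fderiv ℝ η (t, x) (1, 0)
      = T * ∫ s, Ψ (s, x0) * fderiv ℝ η (T * (1 - s), x) (1, 0) ∂AH.I := by
    rw [← AJ.t_int hT (fun s => Ψ (s, x0) * fderiv ℝ η (T * (1 - s), x) (1, 0))]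
    · refine integral_congr_ae (Eventually.of_forall fun t => ?_)
      simp only [AJ.th]
      have : T * (1 - (1 - t / T)) = t := by field_simp; ring
      rw [this]
    · exact ((hm.comp (measurable_id.prodMk measurable_const)).mul
        (hηt.measurable.comp (by fun_prop))).aestronglyMeasurable
  have e2 : ∫ t in Set.Ioo 0 T, -(Ψs (AJ.th i0 T (t, x)) / T) * η (t, x)
      = T * ∫ s, -(Ψs (s, x0) / T) * η (T * (1 - s), x) ∂AH.I := by
    rw [← AJ.t_int hT (fun s => -(Ψs (s, x0) / T) * η (T * (1 - s), x))]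
    · refine integral_congr_ae (Eventually.of_forall fun t => ?_)
      simp only [AJ.th]
      have : T * (1 - (1 - t / T)) = t := by field_simp; ring
      rw [this]
    · exact ((((hsm.comp (measurable_id.prodMk measurable_const)).div_const T).neg).mul
        (hηc.measurable.comp (by fun_prop))).aestronglyMeasurable
  change ∫ t in Set.Ioo 0 T, Ψ (AJ.th i0 T (t, x)) * fderiv ℝ η (t, x) (1, 0)
    = - ∫ t in Set.Ioo 0 T, -(Ψs (AJ.th i0 T (t, x)) / T) * η (t, x)
  rw [e1, e2]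
  have e3 : T * ∫ s, Ψ (s, x0) * fderiv ℝ η (T * (1 - s), x) (1, 0) ∂AH.I
      = - ∫ s, (∫ r, AH.ind s r * Ψs (r, x0) ∂AH.I) * deriv ζ s ∂AH.I := by
    rw [← integral_const_mul, ← integral_neg]
    refine integral_congr_ae (AH.memI fun s hs => ?_)
    beta_reduce
    rw [← hx.2 s hs, hζd]
    ring
  have e4 : T * ∫ s, -(Ψs (s, x0) / T) * η (T * (1 - s), x) ∂AH.I
      = - ∫ s, Ψs (s, x0) * ζ s ∂AH.I := by
    rw [← integral_const_mul, ← integral_neg]
    refine integral_congr_ae (Eventually.of_forall fun s => ?_)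
    simp only [ζ]
    field_simp
  rw [e3, e4, hbp]

open Pool.Agent.R207 in
/-- **Main theorem.** Uniqueness fails on every flat torus and every time interval. -/
theorem result : ∀ N : ℕ, 1 ≤ N → ∀ T : ℝ, 0 < T → ¬ Uniqueness N T := by
  intro N hN T hT hU
  obtain ⟨n, rfl⟩ : ∃ n, N = n + 1 := ⟨N - 1, by omega⟩
  obtain ⟨Ψ, Ψx, Ψxx, Ψs, hC, heq, hne⟩ := AI.one_dim
  have hTne : T ≠ 0 := hT.ne'
  let i0 : Fin (n + 1) := 0
  have hthper : ∀ (t : ℝ) (x : Fin (n + 1) → ℝ) (i : Fin (n + 1)),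
      AJ.th i0 T (t, x + Pi.single i 1) = AJ.th i0 T (t, x) := by
    intro t x i
    unfold AJ.th
    simp only [Pi.add_apply]
    by_cases h : i = i0
    · subst h; rw [Pi.single_eq_same, Int.fract_add_one]
    · rw [Pi.single_eq_of_ne (Ne.symm h), add_zero]
  have hthm : Measurable (fun p : ℝ × (Fin (n + 1) → ℝ) => AJ.th i0 T (p.1, p.2)) :=
    AJ.th_meas i0 T
  have hmupos : ∀ q, 0 < AI.mu q := fun q => lt_of_lt_of_le one_pos (AI.mu_one q)
  have hq := AJ.mp_fract (N := n + 1) i0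
  -- the objects
  let μ' : ℝ → (Fin (n + 1) → ℝ) → ℝ := fun t x => AI.mu (AJ.th i0 T (t, x)) / T
  let Φ : ℝ → (Fin (n + 1) → ℝ) → ℝ := fun t x => Ψ (AJ.th i0 T (t, x))
  let G : Fin (n + 1) → ℝ → (Fin (n + 1) → ℝ) → ℝ := fun i t x =>
    if i = i0 then Ψx (AJ.th i0 T (t, x)) else 0
  let H : Fin (n + 1) → Fin (n + 1) → ℝ → (Fin (n + 1) → ℝ) → ℝ := fun i j t x =>
    if i = i0 then (if j = i0 then Ψxx (AJ.th i0 T (t, x)) else 0) else 0
  let D : ℝ → (Fin (n + 1) → ℝ) → ℝ := fun t x => - (Ψs (AJ.th i0 T (t, x)) / T)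
  have hsum : ∀ p : ℝ × (Fin (n + 1) → ℝ), ∑ i, H i i p.1 p.2 = Ψxx (AJ.th i0 T (p.1, p.2)) := by
    intro p
    rw [Finset.sum_eq_single i0]
    · simp [H]
    · intro i _ hi
      simp [H, hi]
    · intro h; exact absurd (Finset.mem_univ _) h
  -- slices
  have hbI : ∀ s ∈ Set.Icc (0 : ℝ) 1, MemLp (fun x => Ψ (s, x)) 2 AH.I := by
    intro s hs
    obtain ⟨C, hCb⟩ := hC.bd
    refine MemLp.of_bound (hC.m0.comp (measurable_const.prodMk measurable_id)).aestronglyMeasurable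
      C ?_
    filter_upwards [hCb] with x hx
    exact hx s hs
  have hxxI : ∀ᵐ s ∂AH.I, MemLp (fun x => Ψxx (s, x)) 2 AH.I := by
    have h1 : ∀ᵐ s ∂AH.I, Integrable (fun x => Ψxx (s, x) ^ 2) AH.I :=
      Integrable.prod_right_ae (f := fun p => Ψxx p ^ 2) hC.xi
    filter_upwards [h1] with s hs
    exact (memLp_two_iff_integrable_sq
      (hC.m2.comp (measurable_const.prodMk measurable_id)).aestronglyMeasurable).2 hs
  have hmem : ∀ᵐ s ∂AH.I, s ∈ Set.Icc (0 : ℝ) 1 := AH.memI fun _ h => h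
  obtain ⟨C2, hC2⟩ := hC.xb
  have hcoef : Coefficient (n + 1) T μ' := by
    refine ⟨(AI.mu_meas.comp hthm).div_const T, fun t x i => ?_, ?_, 1 / T, by positivity, ?_⟩
    · simp only [μ', hthper]
    · exact (AJ.th_intble i0 hT AI.mu_int).div_const T
    · exact Eventually.of_forall fun p => div_le_div_of_nonneg_right (AI.mu_one _) hT.le
  have hX : InX (n + 1) T μ' Φ G H D := by
    refine ⟨fun t x i => ?_, hC.m0.comp hthm, fun i => ?_, fun i j => ?_,
      ((hC.m3.comp hthm).div_const T).neg, ?_, ?_, fun i j => ?_, ?_, fun t ht => ?_, ?_, ?_, ?_⟩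
    · simp only [Φ, hthper]
    · by_cases h : i = i0
      · simp only [G, if_pos h]; exact hC.m1.comp hthm
      · simp only [G, if_neg h]; exact measurable_const
    · by_cases h : i = i0
      · by_cases h' : j = i0
        · simp only [H, if_pos h, if_pos h']; exact hC.m2.comp hthm
        · simp only [H, if_pos h, if_neg h']; exact measurable_const
      · simp only [H, if_neg h]; exact measurable_const
    · -- bounded in H1
      obtain ⟨C, hCb⟩ := hC.bd
      refine ⟨C ^ 2 + C2, ?_⟩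
      filter_upwards [(AJ.t_qmp hT).ae hC2, (AJ.t_qmp hT).ae hmem] with t h1 h2
      have m0 : MemLp (Φ t) 2 (cubeMeasure (n + 1)) :=
        (hbI _ h2).comp_measurePreserving hq
      have m1 : MemLp (fun x : Fin (n + 1) → ℝ => Ψx (1 - t / T, Int.fract (x i0))) 2
          (cubeMeasure (n + 1)) := h1.1.comp_measurePreserving hq
      refine ⟨m0, fun i => ?_, ?_⟩
      · by_cases h : i = i0
        · simp only [G, if_pos h]; exact m1
        · simp only [G, if_neg h]; exact MemLp.zero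
      · have a1 : ∫ x, Φ t x ^ 2 ∂(cubeMeasure (n + 1)) ≤ C ^ 2 := by
          have e : ∫ x, Φ t x ^ 2 ∂(cubeMeasure (n + 1)) = ∫ y, Ψ (1 - t / T, y) ^ 2 ∂AH.I := by
            rw [← hq.map_eq, integral_map hq.measurable.aemeasurable]
            · rfl
            · rw [hq.map_eq]
              exact ((hC.m0.comp (measurable_const.prodMk measurable_id)).pow_const
                2).aestronglyMeasurable
          rw [e]
          have : ∫ y, Ψ (1 - t / T, y) ^ 2 ∂AH.I ≤ ∫ y, C ^ 2 ∂AH.I := by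
            refine integral_mono_ae (hbI _ h2).integrable_sq (integrable_const _) ?_
            filter_upwards [hCb] with x hx
            rw [← sq_abs]
            exact pow_le_pow_left₀ (abs_nonneg _) (hx _ h2) 2
          simpa using this
        have a2 : ∑ i, ∫ x, G i t x ^ 2 ∂(cubeMeasure (n + 1)) ≤ C2 := by
          rw [Finset.sum_eq_single i0]
          · have e : ∫ x, G i0 t x ^ 2 ∂(cubeMeasure (n + 1))
                = ∫ y, Ψx (1 - t / T, y) ^ 2 ∂AH.I := by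
              rw [← hq.map_eq, integral_map hq.measurable.aemeasurable]
              · simp only [G, if_true]; rfl
              · rw [hq.map_eq]
                exact ((hC.m1.comp (measurable_const.prodMk measurable_id)).pow_const
                  2).aestronglyMeasurable
            rw [e]; exact h1.2
          · intro i _ hi
            simp [G, hi]
          · intro h; exact absurd (Finset.mem_univ _) h
        exact add_le_add a1 a2
    · -- weak gradient
      filter_upwards [(AJ.t_qmp hT).ae hC2, (AJ.t_qmp hT).ae hmem, (AJ.t_qmp hT).ae hC.w1]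
        with t h1 h2 h3 i
      exact weakPartial_lift i0 i ((hbI _ h2).integrable (by norm_num))
        (h1.1.integrable (by norm_num)) h3
    · -- hessian square integrable
      by_cases h : i = i0
      · by_cases h' : j = i0
        · simp only [H, if_pos h, if_pos h']
          exact AJ.th_intble i0 hT hC.xi
        · simp only [H, if_pos h, if_neg h']
          simp
      · simp only [H, if_neg h]
        simp
    · filter_upwards [(AJ.t_qmp hT).ae hC2, (AJ.t_qmp hT).ae hxxI, (AJ.t_qmp hT).ae hC.w2]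
        with t h1 h2 h3 i j
      by_cases h : i = i0
      · constructor
        · by_cases h' : j = i0
          · simp only [H, if_pos h, if_pos h']
            exact h2.comp_measurePreserving hq
          · simp only [H, if_pos h, if_neg h']
            exact MemLp.zero
        · have := weakPartial_lift i0 j (h1.1.integrable (by norm_num))
            (h2.integrable (by norm_num)) h3
          simp only [G, H, if_pos h]
          exact this
      · constructor
        · simp only [H, if_neg h]; exact MemLp.zero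
        · simp only [G, H, if_neg h]
          exact weakPartial_zero j
    · -- continuity in time
      have hs01 : ∀ s ∈ Set.Icc (0 : ℝ) T, 1 - s / T ∈ Set.Icc (0 : ℝ) 1 := by
        intro s hs
        have h1 : s / T ≤ 1 := (div_le_one hT).2 hs.2
        have h2 : 0 ≤ s / T := div_nonneg hs.1 hT.le
        exact ⟨by linarith, by linarith⟩
      refine ⟨(hbI _ (hs01 t ht)).comp_measurePreserving hq, ?_⟩
      obtain ⟨C, hCb⟩ := hC.bd
      have e : ∀ s, ∫ x, (Φ s x - Φ t x) ^ 2 ∂(cubeMeasure (n + 1))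
          = ∫ y, (Ψ (1 - s / T, y) - Ψ (1 - t / T, y)) ^ 2 ∂AH.I := by
        intro s
        rw [← hq.map_eq, integral_map hq.measurable.aemeasurable]
        · rfl
        · rw [hq.map_eq]
          exact (((hC.m0.comp (measurable_const.prodMk measurable_id)).sub
            (hC.m0.comp (measurable_const.prodMk measurable_id))).pow_const 2).aestronglyMeasurable
      simp only [e]
      have h0 : ∫ y, (0 : ℝ) ∂AH.I = 0 := by simp
      suffices key : Tendsto (fun s => ∫ y, (Ψ (1 - s / T, y) - Ψ (1 - t / T, y)) ^ 2 ∂AH.I)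
          (𝓝[Set.Icc (0 : ℝ) T] t) (𝓝 (∫ y, (0 : ℝ) ∂AH.I)) by rwa [h0] at key
      refine tendsto_integral_filter_of_dominated_convergence (fun _ => (2 * C) ^ 2) ?_ ?_
        (integrable_const _) ?_
      · exact Eventually.of_forall fun s => (((hC.m0.comp (measurable_const.prodMk
          measurable_id)).sub (hC.m0.comp (measurable_const.prodMk
            measurable_id))).pow_const 2).aestronglyMeasurable
      · filter_upwards [self_mem_nhdsWithin] with s hs
        filter_upwards [hCb] with y hy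
        rw [Real.norm_eq_abs, abs_of_nonneg (sq_nonneg _), ← sq_abs]
        refine pow_le_pow_left₀ (abs_nonneg _) ?_ 2
        refine (abs_sub _ _).trans ?_
        have := hy _ (hs01 s hs)
        have := hy _ (hs01 t ht)
        linarith
      · have j1 : ∀ᵐ x ∂AH.I, Integrable (fun s => Ψs (s, x)) AH.I :=
          Integrable.prod_left_ae (f := Ψs) hC.si
        filter_upwards [hC.ti, j1] with y hy hy1
        have hcont : ContinuousOn (fun s => Ψ (s, y)) (Set.Icc 0 1) :=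
          (AH.prim_cont hy1).congr (fun s hs => hy s hs)
        have h1 : Tendsto (fun s => 1 - s / T) (𝓝[Set.Icc 0 T] t) (𝓝[Set.Icc 0 1] (1 - t / T)) := by
          refine tendsto_nhdsWithin_iff.2 ⟨?_, ?_⟩
          · have hc : Continuous (fun s : ℝ => 1 - s / T) := by fun_prop
            exact (hc.tendsto t).mono_left nhdsWithin_le_nhds
          · filter_upwards [self_mem_nhdsWithin] with s hs using hs01 s hs
        have h2 := (hcont _ (hs01 t ht)).tendsto.comp h1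
        have h3 := (h2.sub_const (Ψ (1 - t / T, y))).pow 2
        simpa using h3
    · exact weakTime_lift i0 hT hC.m0 hC.bd hC.si hC.m3 hC.ti
    · have h1 := (AJ.th_intble (N := n + 1) i0 hT hC.s2).div_const T
      refine h1.congr (Eventually.of_forall fun p => ?_)
      simp only [D, μ']
      have := (hmupos (AJ.th i0 T (p.1, p.2))).ne'
      field_simp
    · have h1 := (AJ.th_intble (N := n + 1) i0 hT hC.x2).div_const T
      refine h1.congr (Eventually.of_forall fun p => ?_)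
      simp only [hsum, μ']
      ring
  have hEq : ∀ᵐ p ∂(cylMeasure (n + 1) T), D p.1 p.2 + μ' p.1 p.2 * (∑ i, H i i p.1 p.2) = 0 := by
    refine Eventually.of_forall fun p => ?_
    rw [hsum]
    simp only [D, μ', heq]
    ring
  have hT0 : ∀ᵐ x ∂(cubeMeasure (n + 1)), Φ T x = 0 := by
    have h1 : ∀ᵐ y ∂AH.I, Ψ (0, y) = 0 := by
      filter_upwards [hC.ti] with y hy
      rw [hy 0 ⟨le_rfl, zero_le_one⟩, AH.int_ind_int 0 ⟨le_rfl, zero_le_one⟩]
      simp
    have h2 := hq.quasiMeasurePreserving.ae h1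
    filter_upwards [h2] with x hx
    simp only [Φ, AJ.th, div_self hTne, sub_self]
    exact hx
  exact hne (AJ.th_back i0 hT hC.m0 (hU μ' hcoef Φ G H D hX hEq hT0))

end Pool.Agent.Results.MP_784f1f_an.NonUniqueness
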